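import Mathlib

set_option autoImplicit false

namespace Pool.Agent.H.MP_c7fa02_an

open Polynomial ComplexConjugate

noncomputable section

lemma root_ind (Pr : ℂ → Prop) (M : ℕ → ℂ[X] → Prop) (h0 : ∀ c, c ≠ 0 → M 0 (C c))
    (hs : ∀ n r q, Pr r → q.natDegree = n → q ≠ 0 → (∀ x, q.IsRoot x → Pr x) → M n q →
      M (n+1) ((X - C r) * q)) :
    ∀ n (p : ℂ[X]), p.natDegree = n → p ≠ 0 → (∀ x, p.IsRoot x → Pr x) → M n p := by
  intro n
  induction n with
  | zero =>
    intro p hp h0' _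
    rw [eq_C_of_natDegree_eq_zero hp] at h0' ⊢
    exact h0 _ (fun h => h0' (by rw [h, map_zero]))
  | succ n ih =>
    intro p hp h0' hr
    have hd : 0 < p.degree := natDegree_pos_iff_degree_pos.1 (by omega)
    obtain ⟨r, hr0⟩ := Complex.exists_root hd
    have e := mul_divByMonic_eq_iff_isRoot.2 hr0
    set q := p /ₘ (X - C r) with hq
    have q0 : q ≠ 0 := by
      intro h; rw [h, mul_zero] at e; exact h0' e.symm
    have qd : q.natDegree = n := by
      have := natDegree_mul (X_sub_C_ne_zero r) q0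
      rw [e, natDegree_X_sub_C] at this; omega
    have qr : ∀ x, q.IsRoot x → Pr x := fun x hx => hr x (by
      rw [← e]; exact root_mul_left_of_isRoot _ hx)
    rw [← e]
    exact hs n r q (hr r hr0) qd q0 qr (ih q qd q0 qr)

def cj (p : ℂ[X]) : ℂ[X] := p.map (starRingEnd ℂ)

def st (n : ℕ) (p : ℂ[X]) : ℂ[X] := reflect n (cj p)

lemma st_coeff {n i : ℕ} (p : ℂ[X]) (h : i ≤ n) : (st n p).coeff i = conj (p.coeff (n - i)) := by
  simp [st, cj, coeff_reflect, revAt_le h]

lemma st_mul (n : ℕ) (r : ℂ) (q : ℂ[X]) (hq : q.natDegree = n) :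
    st (n+1) ((X - C r) * q) = (1 - C (conj r) * X) * st n q := by
  have h1 : (cj (X - C r)).natDegree ≤ 1 := by
    unfold cj; refine natDegree_map_le.trans ?_; rw [natDegree_X_sub_C]
  have h2 : (cj q).natDegree ≤ n := by
    unfold cj; refine natDegree_map_le.trans hq.le
  have h3 : cj ((X - C r) * q) = cj (X - C r) * cj q := by simp [cj]
  have h4 : reflect 1 (cj (X - C r)) = 1 - C (conj r) * X := by
    have : cj (X - C r) = X - C (conj r) := by simp [cj]
    rw [this, reflect_sub, reflect_one_X, reflect_C]; simp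
  rw [st, h3, add_comm n 1, reflect_mul _ _ h1 h2, h4]; rfl

def AA (p : ℂ[X]) : ℂ[X][X] := C p * (cj p).map C

lemma AA_mul (p q : ℂ[X]) : AA (p * q) = AA p * AA q := by
  simp only [AA, cj, Polynomial.map_mul, map_mul]; ring

lemma AA_coeff (p : ℂ[X]) (i j : ℕ) :
    ((AA p).coeff j).coeff i = p.coeff i * conj (p.coeff j) := by
  simp [AA, cj, coeff_C_mul, coeff_map]

lemma AA_lin (r : ℂ) (s : ℝ) (h : (s:ℂ) * s = r * conj r - 1) :
    AA (X - C r) - AA (1 - C (conj r) * X) = (1 - C X * X) * AA (C (s:ℂ)) := by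
  have h2 : (C (C (s:ℂ)) : ℂ[X][X]) * C (C (s:ℂ)) = C (C r) * C (C (conj r)) - 1 := by
    rw [← map_mul, ← map_mul, h]; simp
  simp only [AA, cj, Polynomial.map_sub, Polynomial.map_mul, map_X, map_C, map_sub, map_mul,
    Polynomial.map_one, map_one, Complex.conj_conj, Complex.conj_ofReal]
  linear_combination (-(1 - C X * X : ℂ[X][X])) * h2

lemma AA_list (u : ℂ[X]) (G : List ℂ[X]) :
    ((G.map (fun g => u * g)).map AA).sum = AA u * (G.map AA).sum := by
  induction G with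
  | nil => simp
  | cons g G ih => simp only [List.map_cons, List.sum_cons]; rw [ih, AA_mul, mul_add]

lemma sos : ∀ n (p : ℂ[X]), p.natDegree = n → p ≠ 0 → (∀ x, p.IsRoot x → 1 ≤ ‖x‖) →
    ∃ G : List ℂ[X], AA p - AA (st n p) = (1 - C X * X) * (G.map AA).sum := by
  refine root_ind _ _ ?_ ?_
  · intro c _
    refine ⟨[], ?_⟩
    have : st 0 (C c) = C (conj c) := by simp [st, cj]
    rw [this]
    simp only [AA, cj, map_C, Complex.conj_conj, List.map_nil, List.sum_nil]
    ring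
  · rintro n r q hr hq _ _ ⟨G, hG⟩
    have h1 : 0 ≤ ‖r‖^2 - 1 := by nlinarith
    have hs : ((√(‖r‖^2 - 1) : ℝ):ℂ) * (√(‖r‖^2 - 1) : ℝ) = r * conj r - 1 := by
      rw [← Complex.ofReal_mul, Real.mul_self_sqrt h1, Complex.mul_conj, Complex.normSq_eq_norm_sq]
      push_cast; ring
    refine ⟨(C ((√(‖r‖^2 - 1) : ℝ):ℂ) * st n q) :: G.map (fun g => (X - C r) * g), ?_⟩
    have h3 := AA_list (X - C r) G
    rw [List.map_cons, List.sum_cons, h3, st_mul n r q hq, AA_mul, AA_mul, AA_mul]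
    linear_combination AA (X - C r) * hG + AA (st n q) * AA_lin r _ hs

lemma gram (G : List ℂ[X]) (k : ℕ) :
    2 * ‖(((G.map AA).sum).coeff k).coeff 0‖ ≤
      ((((G.map AA).sum).coeff 0).coeff 0).re + ((((G.map AA).sum).coeff k).coeff k).re := by
  induction G with
  | nil => simp
  | cons g G ih =>
    simp only [List.map_cons, List.sum_cons, coeff_add, AA_coeff, Complex.add_re]
    have h1 := norm_add_le (g.coeff 0 * conj (g.coeff k)) ((((G.map AA).sum).coeff k).coeff 0)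
    rw [norm_mul, Complex.norm_conj] at h1
    rw [Complex.mul_conj, Complex.mul_conj, Complex.normSq_eq_norm_sq, Complex.normSq_eq_norm_sq,
      Complex.ofReal_re, Complex.ofReal_re]
    nlinarith [sq_nonneg (‖g.coeff 0‖ - ‖g.coeff k‖)]

lemma co0 (S : ℂ[X][X]) (j : ℕ) : (((1 - C X * X) * S).coeff j).coeff 0 = (S.coeff j).coeff 0 := by
  rw [sub_mul, one_mul, mul_assoc, coeff_sub, coeff_C_mul, coeff_sub, coeff_X_mul_zero, sub_zero]

lemma coS (S : ℂ[X][X]) (i j : ℕ) : (((1 - C X * X) * S).coeff (j+1)).coeff (i+1)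
    = (S.coeff (j+1)).coeff (i+1) - (S.coeff j).coeff i := by
  rw [sub_mul, one_mul, mul_assoc, coeff_sub, coeff_C_mul, coeff_sub, coeff_X_mul, coeff_X_mul]

/-- the two by two minor of the Schur-Cohn matrix -/
lemma minor {n : ℕ} {p : ℂ[X]} (hp : p.natDegree = n) (h0 : p ≠ 0)
    (hr : ∀ x, p.IsRoot x → 1 ≤ ‖x‖) (k : ℕ) (hk : k ≤ n)
    (hs : ∀ l, 0 < l → l ≤ k → ‖p.coeff l‖ = ‖p.coeff (n - l)‖) :
    ‖p.coeff 0 * conj (p.coeff k) - conj (p.coeff n) * p.coeff (n - k)‖
      ≤ ‖p.coeff 0‖^2 - ‖p.coeff n‖^2 := by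
  obtain ⟨G, hG⟩ := sos n p hp h0 hr
  have g := gram G k
  set S := (G.map AA).sum with hS
  have D : ∀ i j, i ≤ n → j ≤ n → (((1 - C X * X) * S).coeff j).coeff i
      = p.coeff i * conj (p.coeff j) - conj (p.coeff (n - i)) * p.coeff (n - j) := by
    intro i j hi hj
    rw [← hG, coeff_sub, coeff_sub, AA_coeff, AA_coeff, st_coeff p hi, st_coeff p hj,
      Complex.conj_conj]
  have e1 : (S.coeff k).coeff 0
      = p.coeff 0 * conj (p.coeff k) - conj (p.coeff n) * p.coeff (n - k) := by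
    rw [← co0, D 0 k (Nat.zero_le _) hk, Nat.sub_zero]
  have e0 : ((S.coeff 0).coeff 0).re = ‖p.coeff 0‖^2 - ‖p.coeff n‖^2 := by
    rw [← co0, D 0 0 (Nat.zero_le _) (Nat.zero_le _), Nat.sub_zero, Complex.mul_conj,
      mul_comm, Complex.mul_conj, Complex.normSq_eq_norm_sq, Complex.normSq_eq_norm_sq,
      Complex.sub_re, Complex.ofReal_re, Complex.ofReal_re]
  have e2 : ∀ l, l ≤ k → (S.coeff l).coeff l = (S.coeff 0).coeff 0 := by
    intro l
    induction l with
    | zero => intro _; rfl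
    | succ l ih =>
      intro hl
      have := coS S l l
      rw [D _ _ (by omega) (by omega), Complex.mul_conj, mul_comm, Complex.mul_conj,
        Complex.normSq_eq_norm_sq, Complex.normSq_eq_norm_sq, hs (l+1) (by omega) hl, sub_self,
        ih (by omega)] at this
      exact (sub_eq_zero.1 this.symm)
  rw [e2 k le_rfl, e0, e1] at g
  linarith

lemma end_le {n : ℕ} {p : ℂ[X]} (hp : p.natDegree = n) (h0 : p ≠ 0)
    (hr : ∀ x, p.IsRoot x → 1 ≤ ‖x‖) : ‖p.coeff n‖ ≤ ‖p.coeff 0‖ := by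
  have h := minor hp h0 hr 0 (Nat.zero_le _) (fun l h1 h2 => by omega)
  have := norm_nonneg (p.coeff 0 * conj (p.coeff 0) - conj (p.coeff n) * p.coeff (n - 0))
  exact abs_le_of_sq_le_sq' (by linarith) (norm_nonneg _) |>.2

lemma unimod {n : ℕ} {p : ℂ[X]} (hp : p.natDegree = n) (h0 : p ≠ 0)
    (hr : ∀ x, p.IsRoot x → 1 ≤ ‖x‖) (he : ‖p.coeff 0‖ = ‖p.coeff n‖) :
    ∀ x, p.IsRoot x → ‖x‖ = 1 := by
  intro r hr0
  have e := mul_divByMonic_eq_iff_isRoot.2 hr0
  set q := p /ₘ (X - C r) with hq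
  have q0 : q ≠ 0 := by
    intro h; rw [h, mul_zero] at e; exact h0 e.symm
  have qd : q.natDegree + 1 = n := by
    have := natDegree_mul (X_sub_C_ne_zero r) q0
    rw [e, natDegree_X_sub_C] at this; omega
  have qr : ∀ x, q.IsRoot x → 1 ≤ ‖x‖ := fun x hx => hr x (by
    rw [← e]; exact root_mul_left_of_isRoot _ hx)
  have h1 := end_le rfl q0 qr
  have c0 : p.coeff 0 = -r * q.coeff 0 := by
    rw [← e]; simp
  have cn : p.coeff n = q.coeff q.natDegree := by
    have := leadingCoeff_monic_mul (q := q) (monic_X_sub_C r)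
    rw [e, leadingCoeff, leadingCoeff, hp] at this
    exact this
  have pos : 0 < ‖q.coeff q.natDegree‖ := norm_pos_iff.2 (leadingCoeff_ne_zero.2 q0)
  rw [c0, cn, norm_mul, norm_neg] at he
  have h2 := hr r hr0
  by_contra hne
  have : 1 < ‖r‖ := lt_of_le_of_ne h2 (Ne.symm hne)
  nlinarith

lemma lin_re (z r : ℂ) : 2 * (z * conj (z - r)).re = ‖z‖^2 + ‖z - r‖^2 - ‖r‖^2 := by
  simp only [← Complex.normSq_eq_norm_sq, Complex.normSq_apply, Complex.mul_re, Complex.conj_re,
    Complex.conj_im, Complex.sub_re, Complex.sub_im]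
  ring

lemma step_re (z r : ℂ) (q : ℂ[X]) :
    (z * (derivative ((X - C r) * q)).eval z * conj (((X - C r) * q).eval z)).re
      = (z * conj (z - r)).re * ‖q.eval z‖^2
        + ‖z - r‖^2 * (z * (derivative q).eval z * conj (q.eval z)).re := by
  have e : z * (derivative ((X - C r) * q)).eval z * conj (((X - C r) * q).eval z)
      = (z * conj (z - r)) * (q.eval z * conj (q.eval z))
        + ((z - r) * conj (z - r)) * (z * (derivative q).eval z * conj (q.eval z)) := by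
    simp only [derivative_mul, derivative_sub, derivative_X, derivative_C, eval_add, eval_mul,
      eval_sub, eval_X, eval_C, eval_one, eval_zero, map_mul]
    ring
  rw [e, Complex.mul_conj, Complex.mul_conj, Complex.add_re, Complex.re_ofReal_mul,
    Complex.normSq_eq_norm_sq, Complex.normSq_eq_norm_sq, mul_comm (z * conj (z - r)),
    Complex.re_ofReal_mul]
  ring

lemma lag (s : ℝ) (z : ℂ) : ∀ n (p : ℂ[X]), p.natDegree = n → p ≠ 0 →
    (∀ x, p.IsRoot x → 0 ≤ s * (‖x‖^2 - ‖z‖^2)) →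
    s * (2 * (z * (derivative p).eval z * conj (p.eval z)).re) ≤ s * (n * ‖p.eval z‖^2) := by
  refine root_ind _ _ ?_ ?_
  · intro c _; simp
  · intro n r q hr _ _ _ ih
    rw [step_re]
    have l := lin_re z r
    have e : ‖((X - C r) * q).eval z‖^2 = ‖z - r‖^2 * ‖q.eval z‖^2 := by
      simp [mul_pow]
    rw [e]
    have m1 := mul_le_mul_of_nonneg_left ih (sq_nonneg ‖z - r‖)
    have m2 := mul_nonneg hr (sq_nonneg ‖q.eval z‖)
    have e2 : (z * conj (z - r)).re = (‖z‖^2 + ‖z - r‖^2 - ‖r‖^2) / 2 := by linarith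
    rw [e2]
    push_cast
    linarith

lemma lag_strict {z : ℂ} (hz : ‖z‖ < 1) {n : ℕ} (hn : 0 < n) {p : ℂ[X]} (hp : p.natDegree = n)
    (hr : ∀ x, p.IsRoot x → 1 ≤ ‖x‖) :
    2 * (z * (derivative p).eval z * conj (p.eval z)).re < n * ‖p.eval z‖^2 := by
  have h0 : p ≠ 0 := by rintro rfl; simp at hp; omega
  have hd : 0 < p.degree := natDegree_pos_iff_degree_pos.1 (by omega)
  obtain ⟨r, hr0⟩ := Complex.exists_root hd
  have e := mul_divByMonic_eq_iff_isRoot.2 hr0
  set q := p /ₘ (X - C r) with hq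
  have q0 : q ≠ 0 := by
    intro h; rw [h, mul_zero] at e; exact h0 e.symm
  have qd : q.natDegree + 1 = n := by
    have := natDegree_mul (X_sub_C_ne_zero r) q0
    rw [e, natDegree_X_sub_C] at this; omega
  have qr : ∀ x, q.IsRoot x → 1 ≤ ‖x‖ := fun x hx => hr x (by
    rw [← e]; exact root_mul_left_of_isRoot _ hx)
  have z0 := norm_nonneg z
  have ih := lag 1 z _ q rfl q0 (fun x hx => by have := qr x hx; nlinarith)
  have qz : 0 < ‖q.eval z‖^2 := by
    have : q.eval z ≠ 0 := fun h => by have := qr z h; linarith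
    positivity
  have h1 := hr r hr0
  have h2 : 0 < ‖r‖^2 - ‖z‖^2 := by nlinarith
  rw [← e, step_re, ← qd]
  have l := lin_re z r
  have e3 : ‖((X - C r) * q).eval z‖^2 = ‖z - r‖^2 * ‖q.eval z‖^2 := by
    simp [mul_pow]
  rw [e3]
  have m1 := mul_le_mul_of_nonneg_left ih (sq_nonneg ‖z - r‖)
  have m2 := mul_pos h2 qz
  have e2 : (z * conj (z - r)).re = (‖z‖^2 + ‖z - r‖^2 - ‖r‖^2) / 2 := by linarith
  rw [e2]
  push_cast
  linarith

lemma selfinv : ∀ n (p : ℂ[X]), p.natDegree = n → p ≠ 0 → (∀ x, p.IsRoot x → ‖x‖ = 1) →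
    ∃ κ : ℂ, ‖κ‖ = 1 ∧ st n p = C κ * p := by
  refine root_ind _ _ ?_ ?_
  · intro c hc
    refine ⟨conj c / c, ?_, ?_⟩
    · rw [norm_div, Complex.norm_conj, div_self (norm_ne_zero_iff.2 hc)]
    · have : st 0 (C c) = C (conj c) := by simp [st, cj]
      rw [this, ← map_mul, div_mul_cancel₀ _ hc]
  · rintro n r q hr hq _ _ ⟨κ, h1, h2⟩
    refine ⟨-conj r * κ, by rw [norm_mul, norm_neg, Complex.norm_conj, hr, h1, one_mul], ?_⟩
    have : (C (conj r) : ℂ[X]) * C r = 1 := by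
      rw [← map_mul, mul_comm, Complex.mul_conj, Complex.normSq_eq_norm_sq, hr]; simp
    rw [st_mul n r q hq, h2, map_mul, map_neg]
    linear_combination (-(C κ * q)) * this

end

end Pool.Agent.H.MP_c7fa02_an
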