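import Pool.Agent.H.MP_c7fa02_an.A

set_option autoImplicit false

namespace Pool.Agent.H.MP_c7fa02_an

open Polynomial ComplexConjugate Real Metric

noncomputable section

lemma mv {f : ℂ → ℂ} (hf : DifferentiableOn ℂ f (closedBall 0 1)) :
    circleAverage f 0 1 = f 0 := by
  apply DiffContOnCl.circleAverage
  rw [abs_one]
  exact hf.diffContOnCl_ball subset_rfl

lemma congr1 {E : Type} [NormedAddCommGroup E] [NormedSpace ℝ E] {f g : ℂ → E}
    (h : ∀ z, ‖z‖ = 1 → f z = g z) : circleAverage f 0 1 = circleAverage g 0 1 :=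
  circleAverage_congr_sphere (fun z hz => h z (by simpa using hz))

lemma ci {E : Type} [NormedAddCommGroup E] {f : ℂ → E} (h : ∀ z, ‖z‖ = 1 → ContinuousAt f z) :
    CircleIntegrable f 0 1 :=
  ContinuousOn.circleIntegrable zero_le_one
    (fun z hz => (h z (by simpa using hz)).continuousWithinAt)

lemma ne0 {z : ℂ} (hz : ‖z‖ = 1) : z ≠ 0 := by
  rintro rfl; simp at hz

lemma one_sub_ne {v z : ℂ} (hv : ‖v‖ < 1) (hz : ‖z‖ ≤ 1) : 1 - v * z ≠ 0 := by
  intro h
  have e : v * z = 1 := by linear_combination -h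
  have : ‖v * z‖ < 1 := by
    rw [norm_mul]
    calc ‖v‖ * ‖z‖ ≤ ‖v‖ * 1 := mul_le_mul_of_nonneg_left hz (norm_nonneg _)
      _ < 1 := by linarith
  rw [e] at this; simp at this

lemma av_pole {a : ℂ} (ha : ‖a‖ < 1) : circleAverage (fun z => z / (z - a)) 0 1 = 1 := by
  have h1 : circleAverage (fun z : ℂ => 1 / (1 - a * z)) 0 1 = 1 := by
    rw [mv]
    · simp
    · intro z hz
      have := one_sub_ne ha (by simpa using hz : ‖z‖ ≤ 1)
      exact (by fun_prop (disch := assumption) :
        DifferentiableAt ℂ (fun z : ℂ => 1 / (1 - a * z)) z).differentiableWithinAt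
  rw [← circleAverage_zero_one_congr_inv] at h1
  rw [← h1]
  apply congr1
  intro z hz
  have z0 := ne0 hz
  have : z - a ≠ 0 := by
    intro h
    have : z = a := by linear_combination h
    rw [this] at hz; linarith
  field_simp

lemma res (n : ℕ) : ∀ (A : ℂ[X]), A.natDegree = n → ∀ B : ℂ[X], A.eval 0 ≠ 0 →
    (∀ z, ‖z‖ = 1 → A.eval z ≠ 0) →
    (∀ z, ‖z‖ < 1 → A.eval z = 0 → (derivative A).eval z ≠ 0 ∧
      0 ≤ (B.eval z / (z * (derivative A).eval z)).re) →
    (B.eval 0 / A.eval 0).re ≤ (circleAverage (fun z => B.eval z / A.eval z) 0 1).re := by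
  induction n using Nat.strong_induction_on with
  | _ n ih =>
    intro A hA B h0 h1 h2
    by_cases hex : ∃ a, ‖a‖ < 1 ∧ A.eval a = 0
    · obtain ⟨a, ha, hr⟩ := hex
      have A0 : A ≠ 0 := by rintro rfl; simp at h0
      have e := mul_divByMonic_eq_iff_isRoot.2 (show A.IsRoot a from hr)
      set A1 := A /ₘ (X - C a) with hA1
      have q0 : A1 ≠ 0 := by
        intro h; rw [h, mul_zero] at e; exact A0 e.symm
      have qd : A1.natDegree + 1 = n := by
        have := natDegree_mul (X_sub_C_ne_zero a) q0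
        rw [e, natDegree_X_sub_C] at this; omega
      have ev : ∀ z, A.eval z = (z - a) * A1.eval z := fun z => by rw [← e]; simp
      have dv : ∀ z, (derivative A).eval z = A1.eval z + (z - a) * (derivative A1).eval z :=
        fun z => by rw [← e]; simp [derivative_mul]
      have a0 : a ≠ 0 := by rintro rfl; exact h0 hr
      obtain ⟨d1, d2⟩ := h2 a ha hr
      rw [dv, sub_self, zero_mul, add_zero] at d1 d2
      set c := B.eval a / (a * A1.eval a) with hc
      have hr2 : (B - C c * X * A1).IsRoot a := by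
        simp only [IsRoot, eval_sub, eval_mul, eval_C, eval_X, hc]
        field_simp; ring
      have e2 := mul_divByMonic_eq_iff_isRoot.2 hr2
      set B1 := (B - C c * X * A1) /ₘ (X - C a) with hB1
      have ev2 : ∀ z, B.eval z = c * z * A1.eval z + (z - a) * B1.eval z := fun z => by
        have := congrArg (eval z) e2
        simp only [eval_sub, eval_mul, eval_C, eval_X] at this
        linear_combination -this
      have n0 : A1.eval 0 ≠ 0 := fun h => h0 (by rw [ev, h, mul_zero])
      have n1 : ∀ z, ‖z‖ = 1 → A1.eval z ≠ 0 := fun z hz h => h1 z hz (by rw [ev, h, mul_zero])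
      have n2 : ∀ z : ℂ, ‖z‖ = 1 → z - a ≠ 0 := fun z hz h => h1 z hz (by rw [ev, h, zero_mul])
      have i := ih _ (by omega) A1 rfl B1 n0 n1 (by
        intro z hz hz0
        obtain ⟨f1, f2⟩ := h2 z hz (by rw [ev, hz0, mul_zero])
        rw [dv, hz0, zero_add] at f1 f2
        rw [ev2, hz0, mul_zero, zero_add] at f2
        have g1 := left_ne_zero_of_mul f1
        refine ⟨right_ne_zero_of_mul f1, ?_⟩
        have : (z - a) * B1.eval z / (z * ((z - a) * (derivative A1).eval z))
            = B1.eval z / (z * (derivative A1).eval z) := by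
          rw [mul_left_comm, mul_div_mul_left _ _ g1]
        rwa [this] at f2)
      have e3 : circleAverage (fun z => B.eval z / A.eval z) 0 1
          = circleAverage (fun z => c • (z / (z - a)) + B1.eval z / A1.eval z) 0 1 := by
        apply congr1
        intro z hz
        have := n1 z hz
        have := n2 z hz
        rw [ev, ev2, smul_eq_mul]
        field_simp
      rw [e3, circleAverage_fun_add, circleAverage_fun_smul, av_pole ha]
      · have : B.eval 0 / A.eval 0 = B1.eval 0 / A1.eval 0 := by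
          rw [ev, ev2, mul_zero, zero_mul, zero_add, mul_div_mul_left _ _ (by simpa using a0)]
        rw [this, Complex.add_re, smul_eq_mul, mul_one]
        linarith
      · apply ci
        intro z hz
        have := n2 z hz
        fun_prop (disch := assumption)
      · apply ci
        intro z hz
        exact B1.continuousAt.div A1.continuousAt (n1 z hz)
    · rw [mv]
      intro z hz
      have hz' : ‖z‖ ≤ 1 := by simpa using hz
      have : A.eval z ≠ 0 := by
        rcases hz'.lt_or_eq with h | h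
        · exact fun h' => hex ⟨z, h, h'⟩
        · exact h1 z h
      exact (B.differentiableAt.div A.differentiableAt this).differentiableWithinAt

lemma Pw {N : ℕ} (hN : 0 < N) {Q : ℂ[X]} (hQ : Q.natDegree = 2 * N)
    (hr : ∀ x, Q.IsRoot x → 1 ≤ ‖x‖) (w : ℂ) (hw : ∀ z, ‖z‖ = 1 → w * z^N - Q.eval z ≠ 0) :
    0 ≤ (circleAverage (fun z => w * z^N / (w * z^N - Q.eval z)) 0 1).re := by
  have nz : ∀ z, ‖z‖ < 1 → Q.eval z ≠ 0 := fun z hz h => by have := hr z h; linarith
  have h := res _ (C w * X^N - Q) rfl (C w * X^N) ?_ ?_ ?_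
  · simpa [hN.ne'] using h
  · simpa [hN.ne'] using nz 0 (by simp)
  · intro z hz; simpa using hw z hz
  · intro z hz h0
    have e : Q.eval z = w * z^N := by
      simp only [eval_sub, eval_mul, eval_C, eval_pow, eval_X] at h0
      linear_combination -h0
    have l := lag_strict hz (by omega : 0 < 2 * N) hQ hr
    set D := z * (derivative (C w * X^N - Q)).eval z with hD
    have eD : D = N * Q.eval z - z * (derivative Q).eval z := by
      obtain ⟨M, rfl⟩ : ∃ M, N = M + 1 := ⟨N - 1, by omega⟩
      rw [hD, e]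
      simp only [derivative_sub, derivative_mul, derivative_C, derivative_X_pow, eval_sub, eval_add,
        eval_mul, eval_C, eval_pow, eval_X, eval_zero, Nat.add_sub_cancel]
      ring
    have pos : 0 < (D * conj (Q.eval z)).re := by
      rw [eD, sub_mul, mul_assoc, Complex.mul_conj, Complex.normSq_eq_norm_sq, Complex.sub_re]
      have : ((N:ℂ) * ((‖Q.eval z‖^2 : ℝ):ℂ)).re = N * ‖Q.eval z‖^2 := by
        rw [← Complex.ofReal_natCast, ← Complex.ofReal_mul, Complex.ofReal_re]
      rw [this]
      push_cast at l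
      linarith
    have D0 : D ≠ 0 := by intro h; rw [h] at pos; simp at pos
    refine ⟨right_ne_zero_of_mul D0, ?_⟩
    have e2 : (C w * X^N : ℂ[X]).eval z = Q.eval z := by rw [e]; simp
    rw [e2, Complex.div_re]
    have := Complex.normSq_nonneg D
    rw [← add_div]
    apply div_nonneg _ this
    simp only [Complex.mul_re, Complex.conj_re, Complex.conj_im] at pos
    linarith

lemma av_kernel {v : ℂ} (hv : ‖v‖ < 1) :
    circleAverage (fun z : ℂ => (-(z - z⁻¹)^2 / 4) / ((1 - v * z) * (1 - v * z⁻¹))) 0 1 = 1/2 := by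
  have h1 : circleAverage (fun z : ℂ => (1 - z^2) / (1 - v * z) / 4) 0 1 = 1/4 := by
    rw [mv]
    · simp
    · intro z hz
      have := one_sub_ne hv (by simpa using hz : ‖z‖ ≤ 1)
      exact (by fun_prop (disch := assumption) :
        DifferentiableAt ℂ (fun z : ℂ => (1 - z^2) / (1 - v * z) / 4) z).differentiableWithinAt
  have h2 := h1
  rw [← circleAverage_zero_one_congr_inv] at h2
  have e : circleAverage (fun z : ℂ => (-(z - z⁻¹)^2 / 4) / ((1 - v * z) * (1 - v * z⁻¹))) 0 1
      = circleAverage (fun z : ℂ => (1 - z^2) / (1 - v * z) / 4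
          + (1 - (z⁻¹)^2) / (1 - v * z⁻¹) / 4) 0 1 := by
    apply congr1
    intro z hz
    have z0 := ne0 hz
    have a1 := one_sub_ne hv hz.le
    have a2 := one_sub_ne hv (show ‖z⁻¹‖ ≤ 1 by rw [norm_inv, hz]; simp)
    have zz : z * z⁻¹ = 1 := mul_inv_cancel₀ z0
    generalize z⁻¹ = u at a2 zz ⊢
    rw [div_div _ _ (4:ℂ), div_div _ _ (4:ℂ), div_add_div _ _ (mul_ne_zero a1 (by norm_num))
      (mul_ne_zero a2 (by norm_num)), div_div, div_eq_div_iff
      (mul_ne_zero (by norm_num) (mul_ne_zero a1 a2))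
      (mul_ne_zero (mul_ne_zero a1 (by norm_num)) (mul_ne_zero a2 (by norm_num)))]
    linear_combination (16 * (1 - v * z) * (1 - v * u) * (2 - v * z - v * u)) * zz
  rw [e, circleAverage_fun_add, h1, h2]
  · norm_num
  · apply ci
    intro z hz
    have a1 := one_sub_ne hv hz.le
    fun_prop (disch := assumption)
  · apply ci
    intro z hz
    have z0 := ne0 hz
    have a2 := one_sub_ne hv (show ‖z⁻¹‖ ≤ 1 by rw [norm_inv, hz]; simp)
    fun_prop (disch := assumption)

lemma av_coeff (Q : ℂ[X]) (N : ℕ) :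
    circleAverage (fun z => Q.eval z / z^N) 0 1 = Q.coeff N := by
  induction Q using Polynomial.induction_on' with
  | add p q hp hq =>
    simp only [eval_add, add_div, coeff_add]
    rw [circleAverage_fun_add, hp, hq]
    · apply ci; intro z hz
      exact p.continuousAt.div (by fun_prop) (pow_ne_zero _ (ne0 hz))
    · apply ci; intro z hz
      exact q.continuousAt.div (by fun_prop) (pow_ne_zero _ (ne0 hz))
  | monomial j a =>
    simp only [eval_monomial, coeff_monomial]
    have h1 : ∀ m : ℕ, circleAverage (fun z : ℂ => a * z^m) 0 1 = a * 0^m := fun m =>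
      mv (f := fun z : ℂ => a * z^m) (by fun_prop)
    rcases Nat.le_total N j with h | h
    · obtain ⟨m, rfl⟩ := Nat.exists_eq_add_of_le h
      rw [congr1 (g := fun z : ℂ => a * z^m), h1]
      · rcases Nat.eq_zero_or_pos m with rfl | hm
        · simp
        · simp [hm.ne']
      · intro z hz
        have z0 := ne0 hz
        field_simp
        ring
    · obtain ⟨m, rfl⟩ := Nat.exists_eq_add_of_le h
      have h2 := h1 m
      rw [← circleAverage_zero_one_congr_inv] at h2
      rw [congr1 (g := fun z : ℂ => a * (z⁻¹)^m), h2]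
      · rcases Nat.eq_zero_or_pos m with rfl | hm
        · simp
        · simp [hm.ne']
      · intro z hz
        have z0 := ne0 hz
        rw [inv_pow]
        field_simp
        ring

lemma swap (F : ℂ → ℂ → ℝ)
    (hF : Continuous (fun p : ℝ × ℝ => F (circleMap 0 1 p.1) (circleMap 0 1 p.2))) :
    circleAverage (fun u => circleAverage (fun z => F u z) 0 1) 0 1
      = circleAverage (fun z => circleAverage (fun u => F u z) 0 1) 0 1 := by
  unfold circleAverage
  congr 1
  rw [intervalIntegral.integral_smul, intervalIntegral.integral_smul]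
  congr 1
  apply MeasureTheory.intervalIntegral_intervalIntegral_swap
    (F := fun x y => F (circleMap 0 1 x) (circleMap 0 1 y))
  have : MeasureTheory.IntegrableOn
      (fun p : ℝ × ℝ => F (circleMap 0 1 p.1) (circleMap 0 1 p.2))
      (Set.uIcc 0 (2*π) ×ˢ Set.uIcc 0 (2*π)) :=
    hF.continuousOn.integrableOn_compact (isCompact_uIcc.prod isCompact_uIcc)
  exact this.mono_set (Set.prod_mono Set.uIoc_subset_uIcc Set.uIoc_subset_uIcc)

lemma exists_v (s : ℂ) (hs : s.im ≠ 0 ∨ s.re < -2) :
    ∃ v : ℂ, v ≠ 0 ∧ ‖v‖ < 1 ∧ v + v⁻¹ = s := by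
  obtain ⟨d, hd⟩ := IsAlgClosed.exists_pow_nat_eq (s^2 - 4) (by norm_num : 0 < 2)
  have hp : ((s + d)/2) * ((s - d)/2) = 1 := by linear_combination (-1/4 : ℂ) * hd
  have aux : ∀ v u : ℂ, v * u = 1 → v + u = s → ‖v‖ ≤ 1 →
      ∃ v : ℂ, v ≠ 0 ∧ ‖v‖ < 1 ∧ v + v⁻¹ = s := by
    intro v u h1 h2 h3
    have e : v⁻¹ = u := inv_eq_of_mul_eq_one_right h1
    refine ⟨v, left_ne_zero_of_mul_eq_one h1, lt_of_le_of_ne h3 ?_, by rw [e, h2]⟩
    intro h4
    rw [Complex.inv_eq_conj h4] at e
    rw [← e, Complex.add_conj] at h2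
    have h5 := Complex.abs_re_le_norm v
    rw [h4] at h5
    have h6 := (abs_le.1 h5).1
    rw [← h2] at hs
    simp only [Complex.ofReal_im, Complex.ofReal_re] at hs
    rcases hs with h | h
    · exact h rfl
    · linarith
  rcases le_total ‖(s + d)/2‖ 1 with h | h
  · exact aux _ _ hp (by ring) h
  · refine aux ((s - d)/2) ((s + d)/2) (by rw [mul_comm]; exact hp) (by ring) ?_
    have := congrArg norm hp
    rw [norm_mul, norm_one] at this
    have h2 := norm_nonneg ((s - d)/2)
    nlinarith

lemma v_bound {v s : ℂ} {δ : ℝ} (h0 : v ≠ 0) (h1 : ‖v‖ < 1) (h2 : v + v⁻¹ = s) (hδ : 0 < δ)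
    (h3 : s.re ≤ 2) (h4 : 0 < s.re → 4 * s.im^2 ≤ δ^4) : s.re - δ ≤ 2 * v.re := by
  set m := Complex.normSq v with hm
  have m0 : 0 < m := Complex.normSq_pos.2 h0
  have m1 : m < 1 := by
    rw [hm, Complex.normSq_eq_norm_sq]; have := norm_nonneg v; nlinarith
  have md : m = v.re^2 + v.im^2 := by rw [hm, Complex.normSq_apply]; ring
  set k := m⁻¹ with hk
  have k1 : 1 < k := one_lt_inv_iff₀.2 ⟨m0, m1⟩
  have mk : m * k = 1 := mul_inv_cancel₀ m0.ne'
  have e1 : s.re = v.re * (1 + k) := by
    rw [← h2, Complex.add_re, Complex.inv_re, div_eq_mul_inv]; ring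
  have e2 : s.im = v.im * (1 - k) := by
    rw [← h2, Complex.add_im, Complex.inv_im, div_eq_mul_inv]; ring
  set p := v.re
  set q := v.im
  rcases le_or_gt p 0 with hp | hp
  · have := mul_nonneg (neg_nonneg.2 hp) (sub_nonneg.2 k1.le)
    rw [e1]; linarith
  · have sp : 0 < s.re := by rw [e1]; positivity
    have h5 := h4 sp
    rw [e2] at h5
    rw [e1] at h3 sp
    have a1 : (p * (1 + k))^2 ≤ 2^2 := pow_le_pow_left₀ sp.le h3 2
    have mk2 : (p^2 + q^2) * k = 1 := by rw [← md]; exact mk
    have a2 : (p * (k - 1))^2 ≤ 4 * q^2 * k := by linarith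
    have a3 : p^2 * k ≤ 1 := by
      have : 0 ≤ q^2 * k := by positivity
      linarith
    have a4 : (p * (k - 1))^4 ≤ δ^4 := by
      have b1 := mul_le_mul_of_nonneg_right a2 (sq_nonneg (p * (k - 1)))
      have b2 := mul_le_mul_of_nonneg_left a3 (by positivity : 0 ≤ 4 * (q * (1 - k))^2)
      linarith
    have a5 : p * (k - 1) ≤ δ := le_of_pow_le_pow_left₀ (by norm_num) hδ.le a4
    rw [e1]; linarith

end

end Pool.Agent.H.MP_c7fa02_an
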