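import Pool.Agent.H.MP_c7fa02_an.B

set_option autoImplicit false

namespace Pool.Agent.H.MP_c7fa02_an

open Polynomial ComplexConjugate Real Metric

noncomputable section

lemma den_ne {t y ε : ℝ} (ht : 0 < t) (hε : 0 < ε) : (t:ℂ) - y * (1 - Complex.I * ε) ≠ 0 := by
  intro h
  have h1 := congrArg Complex.im h
  have h2 := congrArg Complex.re h
  simp at h1 h2
  rcases h1 with h1 | h1
  · rw [h1] at h2; linarith
  · linarith

lemma t_pos {u : ℂ} (hu : ‖u‖ = 1) {ε : ℝ} (hε : 0 < ε) : 0 < ε + 1/2 + u.re / 2 := by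
  have h5 := Complex.abs_re_le_norm u
  rw [hu] at h5
  have := (abs_le.1 h5).1
  linarith

lemma inner_u {y δ : ℝ} (hy : y ≤ 1) (hδ : 0 < δ) :
    circleAverage (fun u : ℂ => (((u.im^2 : ℝ):ℂ) /
      (((δ^2/8 + 1/2 + u.re / 2 : ℝ):ℂ) - y * (1 - Complex.I * (δ^2/8 : ℝ)))).re) 0 1
      ≤ 2 - 4 * y + δ^2/2 + δ := by
  set ε : ℝ := δ^2/8 with hε
  have ε0 : 0 < ε := by positivity
  set s : ℂ := 4 * (y * (1 - Complex.I * ε) - ε) - 2 with hs
  have sre : s.re = 4 * y - 4 * ε - 2 := by rw [hs]; simp; ring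
  have sim : s.im = -4 * ε * y := by rw [hs]; simp; ring
  obtain ⟨v, v0, v1, v2⟩ := exists_v s (by
    by_cases h : y = 0
    · right; rw [sre, h]; linarith
    · left; rw [sim]; exact mul_ne_zero (by linarith) h)
  have vb := v_bound v0 v1 v2 hδ (by rw [sre]; linarith) (by
    intro h
    rw [sre] at h
    have y0 : 0 < y := by linarith
    have : y^2 ≤ 1 := by nlinarith
    have e : δ^4 = 64 * ε^2 := by rw [hε]; ring
    rw [sim, e]
    have := mul_le_mul_of_nonneg_left this (by positivity : 0 ≤ 64 * ε^2)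
    linarith)
  have hc : CircleIntegrable (fun u : ℂ => (((u.im^2 : ℝ):ℂ) /
      (((ε + 1/2 + u.re / 2 : ℝ):ℂ) - y * (1 - Complex.I * ε)))) 0 1 := by
    apply ci
    intro u hu
    have := den_ne (y := y) (t_pos hu ε0) ε0
    exact ContinuousAt.div (f := fun u : ℂ => ((u.im^2 : ℝ):ℂ))
      (g := fun u : ℂ => (((ε + 1/2 + u.re / 2 : ℝ):ℂ) - y * (1 - Complex.I * ε)))
      (by fun_prop) (by fun_prop) this
  have e1 := Complex.reCLM.circleAverage_comp_comm hc
  have e2 : circleAverage (fun u : ℂ => (((u.im^2 : ℝ):ℂ) /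
      (((ε + 1/2 + u.re / 2 : ℝ):ℂ) - y * (1 - Complex.I * ε)))) 0 1 = -2 * v := by
    have k := av_kernel v1
    have : -2 * v = (-4 * v) • (1/2 : ℂ) := by rw [smul_eq_mul]; ring
    rw [this, ← k, ← circleAverage_fun_smul]
    apply congr1
    intro u hu
    have a1 := one_sub_ne v1 hu.le
    have a2 := one_sub_ne v1 (show ‖u⁻¹‖ ≤ 1 by rw [norm_inv, hu]; simp)
    have a3 := den_ne (y := y) (t_pos hu ε0) ε0
    have uu : u * u⁻¹ = 1 := mul_inv_cancel₀ (ne0 hu)
    have vv : v * v⁻¹ = 1 := mul_inv_cancel₀ v0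
    have b1 : ((u.re:ℝ):ℂ) = (u + u⁻¹) / 2 := by
      rw [Complex.inv_eq_conj hu, Complex.add_conj]; push_cast; ring
    have b2 : ((u.im^2:ℝ):ℂ) = -(u - u⁻¹)^2 / 4 := by
      rw [Complex.inv_eq_conj hu, Complex.sub_conj]; push_cast
      linear_combination ((u.im:ℂ)^2) * Complex.I_sq
    have b3 : (((ε + 1/2 + u.re / 2 : ℝ):ℂ) - y * (1 - Complex.I * ε)) * (-4 * v)
        = (1 - v * u) * (1 - v * u⁻¹) := by
      push_cast
      rw [b1]
      rw [hs] at v2
      linear_combination (-v) * v2 + vv - v^2 * uu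
    rw [smul_eq_mul, b2, ← b3, mul_div_assoc', mul_comm (-4 * v),
      mul_div_mul_right _ _ (mul_ne_zero (by norm_num) v0)]
  rw [e2] at e1
  have e3 : circleAverage (fun u : ℂ => (((u.im^2 : ℝ):ℂ) /
      (((ε + 1/2 + u.re / 2 : ℝ):ℂ) - y * (1 - Complex.I * ε))).re) 0 1 = (-2 * v).re := e1
  rw [e3]
  have : (-2 * v).re = -2 * v.re := by simp
  rw [this]
  rw [sre] at vb
  linarith

lemma inner_z {N : ℕ} (hN : 0 < N) {Q : ℂ[X]} (hQ : Q.natDegree = 2 * N)
    (hr : ∀ x, Q.IsRoot x → 1 ≤ ‖x‖) (hre : ∀ z, ‖z‖ = 1 → (Q.eval z / z^N).im = 0)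
    {s t ε : ℝ} (hs : 0 ≤ s) (ht : 0 < t) (hε : 0 < ε) :
    0 ≤ circleAverage (fun z : ℂ => ((s:ℂ) /
      ((t:ℂ) - (Q.eval z / z^N).re * (1 - Complex.I * ε))).re) 0 1 := by
  have c0 : (1 - Complex.I * ε) ≠ 0 := by
    intro h
    have h2 := congrArg Complex.re h
    simp at h2
  have hq : ∀ z, ‖z‖ = 1 → Q.eval z = ((Q.eval z / z^N).re : ℝ) * z^N := by
    intro z hz
    have : (((Q.eval z / z^N).re : ℝ):ℂ) = Q.eval z / z^N :=
      Complex.ext (by simp) (by rw [Complex.ofReal_im, hre z hz])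
    rw [this, div_mul_cancel₀ _ (pow_ne_zero _ (ne0 hz))]
  set w : ℂ := t / (1 - Complex.I * ε) with hw
  have e0 : ∀ z, ‖z‖ = 1 → (w * z^N - Q.eval z) * (1 - Complex.I * ε)
      = ((t:ℂ) - (Q.eval z / z^N).re * (1 - Complex.I * ε)) * z^N := by
    intro z hz
    have := hq z hz
    have h2 : w * (1 - Complex.I * ε) = t := div_mul_cancel₀ _ c0
    linear_combination z^N * h2 - (1 - Complex.I * ε) * this
  have hw0 : ∀ z, ‖z‖ = 1 → w * z^N - Q.eval z ≠ 0 := by
    intro z hz h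
    have := e0 z hz
    rw [h, zero_mul] at this
    exact mul_ne_zero (den_ne ht hε) (pow_ne_zero _ (ne0 hz)) this.symm
  have p := Pw hN hQ hr w hw0
  have hc : CircleIntegrable (fun z => w * z^N / (w * z^N - Q.eval z)) 0 1 := by
    apply ci
    intro z hz
    exact ContinuousAt.div (f := fun z : ℂ => w * z^N) (g := fun z : ℂ => w * z^N - Q.eval z)
      (by fun_prop)
      ((by fun_prop : ContinuousAt (fun z : ℂ => w * z^N) z).sub Q.continuousAt) (hw0 z hz)
  have e1 := Complex.reCLM.circleAverage_comp_comm hc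
  have e2 : circleAverage (fun z : ℂ => ((s:ℂ) /
      ((t:ℂ) - (Q.eval z / z^N).re * (1 - Complex.I * ε))).re) 0 1
      = circleAverage (fun z => (s / t) • (w * z^N / (w * z^N - Q.eval z)).re) 0 1 := by
    apply congr1
    intro z hz
    have a1 := den_ne (y := (Q.eval z / z^N).re) ht hε
    have a2 := hw0 z hz
    have a3 := e0 z hz
    have h2 : w * (1 - Complex.I * ε) = t := div_mul_cancel₀ _ c0
    have t0 : (t:ℂ) ≠ 0 := by exact_mod_cast ht.ne'
    rw [smul_eq_mul, ← Complex.re_ofReal_mul]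
    congr 1
    have a4 : w * z^N / (w * z^N - Q.eval z)
        = t / ((t:ℂ) - (Q.eval z / z^N).re * (1 - Complex.I * ε)) := by
      rw [div_eq_div_iff a2 a1]
      linear_combination (-w) * a3 + (w * z^N - Q.eval z) * h2
    rw [a4]
    push_cast
    field_simp
  rw [e2, circleAverage_fun_smul, smul_eq_mul]
  have e3 : circleAverage (fun z => (w * z^N / (w * z^N - Q.eval z)).re) 0 1
      = (circleAverage (fun z => w * z^N / (w * z^N - Q.eval z)) 0 1).re := e1
  rw [e3]
  positivity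

lemma ci2 (F : ℂ → ℂ → ℝ)
    (hF : Continuous (fun p : ℝ × ℝ => F (circleMap 0 1 p.1) (circleMap 0 1 p.2))) :
    CircleIntegrable (fun z => circleAverage (fun u => F u z) 0 1) 0 1 := by
  apply Continuous.intervalIntegrable
  unfold circleAverage
  have h : Continuous (Function.uncurry
      (fun θ φ : ℝ => F (circleMap 0 1 φ) (circleMap 0 1 θ))) := hF.comp continuous_swap
  exact (intervalIntegral.continuous_parametric_intervalIntegral_of_continuous'
    (μ := MeasureTheory.volume) h 0 (2 * π)).const_smul (2 * π)⁻¹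

lemma kri1 {N : ℕ} (hN : 0 < N) {Q : ℂ[X]} (hQ : Q.natDegree = 2 * N)
    (hr : ∀ x, Q.IsRoot x → 1 ≤ ‖x‖) (hre : ∀ z, ‖z‖ = 1 → (Q.eval z / z^N).im = 0)
    (hle : ∀ z, ‖z‖ = 1 → (Q.eval z / z^N).re ≤ 1) : (Q.coeff N).re ≤ 1/2 := by
  have key : ∀ δ : ℝ, 0 < δ → 0 ≤ 2 - 4 * (Q.coeff N).re + δ^2/2 + δ := by
    intro δ hδ
    have ε0 : 0 < δ^2/8 := by positivity
    have cT : Continuous (fun θ : ℝ => Q.eval (circleMap 0 1 θ) / (circleMap 0 1 θ)^N) := by
      apply Continuous.div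
      · exact Q.continuous.comp (continuous_circleMap 0 1)
      · fun_prop
      · intro θ; exact pow_ne_zero _ (ne0 (by simp))
    let F : ℂ → ℂ → ℝ := fun u z => (((u.im^2 : ℝ):ℂ) /
      (((δ^2/8 + 1/2 + u.re / 2 : ℝ):ℂ)
        - (Q.eval z / z^N).re * (1 - Complex.I * (δ^2/8 : ℝ)))).re
    have hF : Continuous (fun p : ℝ × ℝ => F (circleMap 0 1 p.1) (circleMap 0 1 p.2)) := by
      apply Complex.continuous_re.comp
      apply Continuous.div
      · fun_prop
      · apply Continuous.sub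
        · fun_prop
        · exact (Complex.continuous_ofReal.comp (Complex.continuous_re.comp
            (cT.comp continuous_snd))).mul continuous_const
      · intro p
        exact den_ne (t_pos (by simp) ε0) ε0
    have sw := swap F hF
    have l1 : 0 ≤ circleAverage (fun u => circleAverage (fun z => F u z) 0 1) 0 1 := by
      apply circleAverage_nonneg_of_nonneg
      intro u hu
      have hu' : ‖u‖ = 1 := by simpa using hu
      exact inner_z hN hQ hr hre (sq_nonneg _) (t_pos hu' ε0) ε0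
    have hc : CircleIntegrable (fun z => Q.eval z / z^N) 0 1 := cT.intervalIntegrable _ _
    have hc2 : CircleIntegrable (fun z => (Q.eval z / z^N).re) 0 1 :=
      (Complex.continuous_re.comp cT).intervalIntegrable _ _
    have e1 : circleAverage (fun z => (Q.eval z / z^N).re) 0 1 = (Q.coeff N).re := by
      rw [← av_coeff]
      exact Complex.reCLM.circleAverage_comp_comm hc
    have hc3 := ci2 F hF
    have hc4 : CircleIntegrable (fun z => (-4:ℝ) • (Q.eval z / z^N).re) 0 1 := hc2.const_smul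
    have l2 : circleAverage (fun z => circleAverage (fun u => F u z) 0 1) 0 1
        ≤ circleAverage (fun z => (-4:ℝ) • (Q.eval z / z^N).re + (2 + δ^2/2 + δ)) 0 1 := by
      apply circleAverage_mono hc3 (hc4.add (circleIntegrable_const _ _ _))
      intro z hz
      have hz' : ‖z‖ = 1 := by simpa using hz
      have := inner_u (hle z hz') hδ
      simp only [Pi.add_apply, smul_eq_mul]
      linarith
    rw [circleAverage_fun_add hc4 (circleIntegrable_const _ _ _), circleAverage_fun_smul,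
      circleAverage_const, e1, smul_eq_mul] at l2
    linarith
  by_contra h
  push Not at h
  set a := (Q.coeff N).re
  have h1 := key (min 1 (a - 1/2)) (lt_min one_pos (by linarith))
  have h2 : min 1 (a - 1/2) ≤ 1 := min_le_left _ _
  have h3 : min 1 (a - 1/2) ≤ a - 1/2 := min_le_right _ _
  have h4 : 0 < min 1 (a - 1/2) := lt_min one_pos (by linarith)
  nlinarith

lemma kri {N : ℕ} (hN : 0 < N) {Q : ℂ[X]} (hQ : Q.natDegree = 2 * N)
    (hr : ∀ x, Q.IsRoot x → 1 ≤ ‖x‖) (hre : ∀ z, ‖z‖ = 1 → (Q.eval z / z^N).im = 0)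
    {c : ℝ} (hc : c ≠ 0)
    (hle : ∀ z, ‖z‖ = 1 → c * (Q.eval z / z^N).re ≤ 1) : c * (Q.coeff N).re ≤ 1/2 := by
  have c0 : (c:ℂ) ≠ 0 := by exact_mod_cast hc
  have e : ∀ z : ℂ, (C (c:ℂ) * Q).eval z / z^N = c * (Q.eval z / z^N) := fun z => by
    rw [eval_mul, eval_C, mul_div_assoc]
  have := kri1 hN (Q := C (c:ℂ) * Q) (by rw [natDegree_C_mul c0, hQ]) (by
    intro x hx
    apply hr
    rw [IsRoot, eval_mul, eval_C] at hx
    exact (mul_eq_zero.1 hx).resolve_left c0) (by
    intro z hz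
    rw [e, Complex.im_ofReal_mul, hre z hz, mul_zero]) (by
    intro z hz
    rw [e, Complex.re_ofReal_mul]; exact hle z hz)
  rwa [coeff_C_mul, Complex.re_ofReal_mul] at this

end

end Pool.Agent.H.MP_c7fa02_an
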