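import Pool.Agent.H.MP_c7fa02_an.C

set_option autoImplicit false

namespace Pool.Agent.H.MP_c7fa02_an

open Polynomial ComplexConjugate Real Metric

noncomputable section

lemma st_eval {n : ℕ} {p : ℂ[X]} (hp : p.natDegree ≤ n) {z : ℂ} (hz : ‖z‖ = 1) :
    (st n p).eval z = z^n * conj (p.eval z) := by
  have h1 : conj z * z = 1 := by
    rw [mul_comm, Complex.mul_conj, Complex.normSq_eq_norm_sq, hz]; simp
  let _ : Invertible (conj z) := ⟨z, by rw [mul_comm]; exact h1, h1⟩
  have h := eval₂_reflect_mul_pow (RingHom.id ℂ) (conj z) n (cj p) (natDegree_map_le.trans hp)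
  have h2 : (cj p).eval (conj z) = conj (p.eval z) := by
    unfold cj; rw [eval_map, eval₂_at_apply]
  have h3 : (st n p).eval z * (conj z)^n = conj (p.eval z) := by rw [← h2]; exact h
  rw [← h3]
  have : (conj z)^n * z^n = 1 := by rw [← mul_pow, h1, one_pow]
  linear_combination (-(st n p).eval z) * this

lemma hayman {n : ℕ} (hn : 0 < n) {Q : ℂ[X]} (hQ : Q.natDegree = n)
    (hr : ∀ x, Q.IsRoot x → ‖x‖ = 1) {M : ℝ} (hM : ∀ z, ‖z‖ = 1 → ‖Q.eval z‖ ≤ M)
    {k : ℕ} (hk : k ≤ n) : 2 * ‖Q.coeff k‖ ≤ M := by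
  have Q0 : Q ≠ 0 := by rintro rfl; simp at hQ; omega
  have M0 : 0 ≤ M := (norm_nonneg _).trans (hM 1 (by simp))
  rcases M0.eq_or_lt with rfl | Mp
  · have := av_coeff Q k
    rw [congr1 (g := fun _ => (0:ℂ)), circleAverage_const] at this
    · rw [← this]; simp
    · intro z hz
      rw [norm_le_zero_iff.1 (hM z hz), zero_div]
  obtain ⟨κ, k1, k2⟩ := selfinv n Q hQ Q0 hr
  obtain ⟨η, hη⟩ := IsAlgClosed.exists_pow_nat_eq κ (by norm_num : 0 < 2)
  have η1 : ‖η‖ = 1 := by
    have := congrArg norm hη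
    rw [norm_pow, k1] at this
    exact (pow_eq_one_iff_of_nonneg (norm_nonneg _) (by norm_num)).1 this
  have η2 : conj η * η = 1 := by
    rw [mul_comm, Complex.mul_conj, Complex.normSq_eq_norm_sq, η1]; simp
  set R := C η * Q with hR
  have Rd : R.natDegree = n := by rw [hR, natDegree_C_mul (ne0 η1), hQ]
  have R0 : R ≠ 0 := by intro h; rw [h] at Rd; simp at Rd; omega
  have Rr : ∀ x, R.IsRoot x → 1 ≤ ‖x‖ := by
    intro x hx
    rw [IsRoot, hR, eval_mul, eval_C] at hx
    exact (hr x ((mul_eq_zero.1 hx).resolve_left (ne0 η1))).ge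
  have Rc : ∀ i, i ≤ n → conj (R.coeff (n - i)) = R.coeff i := by
    intro i hi
    have := st_coeff Q hi
    rw [k2, coeff_C_mul] at this
    rw [hR, coeff_C_mul, coeff_C_mul, map_mul, ← this, ← hη]
    linear_combination (η * Q.coeff i) * η2
  have Re : ∀ z, ‖z‖ = 1 → z^n * conj (R.eval z) = R.eval z := by
    intro z hz
    have := st_eval hQ.le hz
    rw [k2, eval_mul, eval_C] at this
    rw [hR, eval_mul, eval_C, map_mul, mul_left_comm, ← this, ← hη]
    linear_combination (η * Q.eval z) * η2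
  have RM : ∀ z, ‖z‖ = 1 → ‖R.eval z‖ ≤ M := fun z hz => by
    rw [hR, eval_mul, eval_C, norm_mul, η1, one_mul]; exact hM z hz
  have Rk : ‖Q.coeff k‖ = ‖R.coeff k‖ := by rw [hR, coeff_C_mul, norm_mul, η1, one_mul]
  rw [Rk]
  by_cases h2 : n = 2 * k
  · have hre : ∀ z, ‖z‖ = 1 → (R.eval z / z^k).im = 0 := by
      intro z hz
      rw [← Complex.conj_eq_iff_im, map_div₀, map_pow, ← Complex.inv_eq_conj hz]
      have := Re z hz
      have z0 := ne0 hz
      rw [h2] at this
      rw [inv_pow]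
      field_simp
      linear_combination this
    have hab : ∀ z, ‖z‖ = 1 → |(R.eval z / z^k).re| ≤ M := by
      intro z hz
      refine (Complex.abs_re_le_norm _).trans ?_
      rw [norm_div, norm_pow, hz, one_pow, div_one]; exact RM z hz
    have a1 := kri (by omega) (Rd.trans h2) Rr hre (c := M⁻¹) (by positivity) (by
      intro z hz
      rw [inv_mul_le_iff₀ Mp, mul_one]; exact (abs_le.1 (hab z hz)).2)
    have a2 := kri (by omega) (Rd.trans h2) Rr hre (c := -M⁻¹) (by simp [Mp.ne']) (by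
      intro z hz
      rw [neg_mul, ← mul_neg, inv_mul_le_iff₀ Mp, mul_one]
      have := (abs_le.1 (hab z hz)).1
      linarith)
    rw [inv_mul_le_iff₀ Mp] at a1
    rw [neg_mul, ← mul_neg, inv_mul_le_iff₀ Mp] at a2
    have c := Rc k hk
    rw [show n - k = k by omega, Complex.conj_eq_iff_im] at c
    rw [← Complex.abs_re_eq_norm.2 c]
    have : |(R.coeff k).re| ≤ M / 2 := abs_le.2 ⟨by linarith, by linarith⟩
    linarith
  · have e : ∀ z, ‖z‖ = 1 → (R * R).eval z / z^n = ((‖R.eval z‖^2 : ℝ):ℂ) := by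
      intro z hz
      have := Re z hz
      have z0 := ne0 hz
      rw [← Complex.normSq_eq_norm_sq, ← Complex.mul_conj, eval_mul]
      field_simp
      linear_combination (-R.eval z) * this
    have a1 := kri hn (Q := R * R) (by rw [natDegree_mul R0 R0, Rd]; ring) (by
      intro x hx
      rw [IsRoot, eval_mul, mul_self_eq_zero] at hx
      exact Rr x hx) (fun z hz => by rw [e z hz, Complex.ofReal_im]) (c := (M^2)⁻¹)
      (by positivity) (by
        intro z hz
        rw [e z hz, Complex.ofReal_re, inv_mul_le_iff₀ (by positivity), mul_one]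
        exact pow_le_pow_left₀ (norm_nonneg _) (RM z hz) 2)
    rw [inv_mul_le_iff₀ (by positivity), coeff_mul, Complex.re_sum] at a1
    have e2 : ∀ p ∈ Finset.HasAntidiagonal.antidiagonal n, (R.coeff p.1 * R.coeff p.2).re = ‖R.coeff p.2‖^2 := by
      intro p hp
      have hp' := Finset.HasAntidiagonal.mem_antidiagonal.1 hp
      rw [← Rc p.1 (by omega), show n - p.1 = p.2 by omega, mul_comm, Complex.mul_conj,
        Complex.normSq_eq_norm_sq, Complex.ofReal_re]
    rw [Finset.sum_congr rfl e2] at a1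
    have a2 : ‖R.coeff (n - k, k).2‖^2 + ‖R.coeff (k, n - k).2‖^2
        ≤ ∑ p ∈ Finset.HasAntidiagonal.antidiagonal n, ‖R.coeff p.2‖^2 :=
      Finset.add_le_sum (f := fun p : ℕ × ℕ => ‖R.coeff p.2‖^2) (fun _ _ => sq_nonneg _)
        (Finset.HasAntidiagonal.mem_antidiagonal.2 (by simp only; omega))
        (Finset.HasAntidiagonal.mem_antidiagonal.2 (by simp only; omega))
        (by intro h; have := congrArg Prod.fst h; simp only at this; omega)
    have a3 : ‖R.coeff (n - k)‖ = ‖R.coeff k‖ := by rw [← Rc k hk, Complex.norm_conj]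
    simp only at a2
    rw [a3] at a2
    exact abs_le_of_sq_le_sq' (by nlinarith) M0 |>.2

lemma main {n : ℕ} (hn : 0 < n) {P : ℂ[X]} (hP : P.natDegree = n)
    (hs : ∀ j, j ≤ n → ‖P.coeff j‖ = ‖P.coeff (n - j)‖) {k : ℕ} (hk : k ≤ n) :
    ∃ c : ℂ, ball c ‖P.coeff k‖ ⊆ (fun z => P.eval z) '' ball 0 1 := by
  have d : ∀ w : ℂ, (P - C w).natDegree = n := fun w => by rw [natDegree_sub_C, hP]
  have d0 : ∀ w : ℂ, P - C w ≠ 0 := fun w h => by
    have := d w; rw [h] at this; simp at this; omega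
  have r : ∀ w : ℂ, w ∉ (fun z => P.eval z) '' ball 0 1 →
      ∀ x, (P - C w).IsRoot x → 1 ≤ ‖x‖ := by
    intro w hw x hx
    by_contra h
    apply hw
    refine ⟨x, by simpa using h, ?_⟩
    rw [IsRoot, eval_sub, eval_C] at hx
    exact sub_eq_zero.1 hx
  have c0 : ∀ w : ℂ, (P - C w).coeff 0 = P.coeff 0 - w := fun w => by simp
  have cj : ∀ (w : ℂ) j, 0 < j → (P - C w).coeff j = P.coeff j := fun w j hj => by
    rw [coeff_sub, coeff_C_of_ne_zero hj.ne', sub_zero]
  have s0 := hs 0 (Nat.zero_le _)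
  rw [Nat.sub_zero] at s0
  by_cases hk0 : k = 0 ∨ k = n
  · refine ⟨P.coeff 0, fun w hw => ?_⟩
    by_contra h
    have := end_le (d w) (d0 w) (r w h)
    rw [c0, cj w n hn] at this
    rw [mem_ball, dist_comm, dist_eq_norm] at hw
    rcases hk0 with rfl | rfl <;> linarith
  have k0 : 0 < k := by omega
  have kn : k < n := by omega
  by_cases ak : P.coeff k = 0
  · exact ⟨0, by rw [ak]; simp⟩
  have ak' : conj (P.coeff k) ≠ 0 := by simpa using ak
  have b0 : 0 < ‖P.coeff k‖ := norm_pos_iff.2 ak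
  set e := conj (P.coeff n) * P.coeff (n - k) / conj (P.coeff k) with he
  have en : ‖e‖ = ‖P.coeff n‖ := by
    rw [he, norm_div, norm_mul, Complex.norm_conj, Complex.norm_conj, ← hs k hk,
      mul_div_cancel_right₀ _ b0.ne']
  by_cases hall : ball (P.coeff 0 + e) ‖P.coeff k‖ ⊆ (fun z => P.eval z) '' ball 0 1
  · exact ⟨_, hall⟩
  obtain ⟨w, hw1, hw2⟩ := Set.not_subset.1 hall
  have m := minor (d w) (d0 w) (r w hw2) k hk (by
    intro l h1 h2
    rw [cj w l h1, cj w (n - l) (by omega)]; exact hs l (by omega))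
  rw [c0, cj w k k0, cj w n hn, cj w (n - k) (by omega)] at m
  set x := P.coeff 0 - w with hx
  have m1 : x * conj (P.coeff k) - conj (P.coeff n) * P.coeff (n - k) = (x - e) * conj (P.coeff k) := by
    rw [he]; field_simp
  rw [m1, norm_mul, Complex.norm_conj, ← en] at m
  have m2 : ‖x‖^2 - ‖e‖^2 ≤ ‖x - e‖ * ‖x + e‖ := by
    have h1 := Complex.re_le_norm ((x - e) * conj (x + e))
    rw [norm_mul, Complex.norm_conj] at h1
    refine le_trans (le_of_eq ?_) h1
    simp only [← Complex.normSq_eq_norm_sq, Complex.normSq_apply, Complex.mul_re, Complex.conj_re,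
      Complex.conj_im, Complex.sub_re, Complex.sub_im, Complex.add_re, Complex.add_im]
    ring
  have m3 : ‖x + e‖ < ‖P.coeff k‖ := by
    rw [mem_ball, dist_comm, dist_eq_norm] at hw1
    have : x + e = P.coeff 0 + e - w := by rw [hx]; ring
    rwa [this]
  have xe : x = e := by
    by_contra h
    have : 0 < ‖x - e‖ := norm_pos_iff.2 (sub_ne_zero.2 h)
    have := mul_lt_mul_of_pos_left m3 this
    linarith
  have um := unimod (d w) (d0 w) (r w hw2) (by rw [c0, cj w n hn, ← hx, xe, en])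
  obtain ⟨z, hz, hmax⟩ := (isCompact_sphere (0:ℂ) 1).exists_isMaxOn ⟨1, by simp⟩
    (f := fun z => ‖(P - C w).eval z‖) (continuous_norm.comp (P - C w).continuous).continuousOn
  have hz' : ‖z‖ = 1 := by simpa using hz
  have hay := hayman hn (d w) um (M := ‖(P - C w).eval z‖)
    (fun u hu => hmax (by simpa using hu)) hk
  rw [cj w k k0] at hay
  have l1 := lag (-1) z n _ (d w) (d0 w) (fun u hu => by rw [um u hu, hz']; simp)
  have dd : ∀ w : ℂ, derivative (P - C w) = derivative P := fun w => by simp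
  rw [dd] at l1
  set a := z * (derivative P).eval z with ha
  set M := ‖(P - C w).eval z‖ with hM
  have n0 : (0:ℝ) < n := by exact_mod_cast hn
  have l2 : n * M ≤ 2 * ‖a‖ := by
    have h1 := Complex.re_le_norm (a * conj ((P - C w).eval z))
    rw [norm_mul, Complex.norm_conj, ← hM] at h1
    have Mp : 0 < M := by linarith
    have : M * (n * M) ≤ M * (2 * ‖a‖) := by linarith
    exact le_of_mul_le_mul_left this Mp
  refine ⟨P.eval z - a / n, fun u hu => ?_⟩
  by_contra h
  have l3 := lag 1 z n _ (d u) (d0 u) (fun y hy => by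
    have := r u h y hy
    rw [hz']; nlinarith)
  rw [dd, ← ha] at l3
  set y := (P - C u).eval z with hy
  have l4 : ‖a‖^2 ≤ ‖n * y - a‖^2 := by
    have : ‖n * y - a‖^2 = n * (n * ‖y‖^2) - n * (2 * (a * conj y).re) + ‖a‖^2 := by
      simp only [← Complex.normSq_eq_norm_sq, Complex.normSq_apply, Complex.mul_re, Complex.conj_re,
        Complex.conj_im, Complex.sub_re, Complex.sub_im, Complex.mul_im, Complex.natCast_re,
        Complex.natCast_im]
      ring
    have h2 := mul_le_mul_of_nonneg_left l3 n0.le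
    linarith
  have l5 : ‖a‖ ≤ ‖n * y - a‖ := (abs_le_of_sq_le_sq' l4 (norm_nonneg _)).2
  have nc : (n:ℂ) ≠ 0 := by exact_mod_cast hn.ne'
  have l6 : n * y - a = n * (P.eval z - a / n - u) := by
    rw [hy, eval_sub, eval_C]; field_simp; ring
  rw [l6, norm_mul (n:ℂ), Complex.norm_natCast] at l5
  rw [mem_ball, dist_comm, dist_eq_norm] at hu
  have := mul_lt_mul_of_pos_left hu n0
  have := mul_le_mul_of_nonneg_left hay n0.le
  linarith

lemma st_prod : ∀ n (p : ℂ[X]), p.natDegree = n → p ≠ 0 → (∀ x, p.IsRoot x → x ≠ 0) →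
    ∃ κ : ℂ, st n p = C κ * (p.roots.map (fun r => X - C (conj r)⁻¹)).prod := by
  refine root_ind _ _ ?_ ?_
  · intro c _
    exact ⟨conj c, by simp [st, cj]⟩
  · rintro n r q hr hq q0 _ ⟨κ, h2⟩
    refine ⟨-conj r * κ, ?_⟩
    have r0 : conj r ≠ 0 := by simpa using hr
    have : (C (conj r) : ℂ[X]) * C (conj r)⁻¹ = 1 := by
      rw [← map_mul, mul_inv_cancel₀ r0, map_one]
    rw [st_mul n r q hq, h2, roots_mul (mul_ne_zero (X_sub_C_ne_zero r) q0), roots_X_sub_C,
      Multiset.singleton_add, Multiset.map_cons, Multiset.prod_cons, map_mul, map_neg]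
    linear_combination (-(C κ * (q.roots.map (fun r => X - C (conj r)⁻¹)).prod)) * this

lemma roots_map {P : ℂ[X]} (φ : ℂ → ℂ) (hφ : ∀ x, φ (φ x) = x)
    (h : ∀ x, P.IsRoot x → P.rootMultiplicity (φ x) = P.rootMultiplicity x) :
    P.roots.map φ = P.roots := by
  have inj : Function.Injective φ := Function.LeftInverse.injective hφ
  ext a
  conv_lhs => rw [← hφ a]
  rw [Multiset.count_map_eq_count' φ _ inj, count_roots, count_roots]
  by_cases h1 : P.IsRoot a
  · exact h a h1
  by_cases h2 : P.IsRoot (φ a)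
  · have := h _ h2
    rw [hφ] at this; exact this.symm
  · rw [rootMultiplicity_eq_zero h1, rootMultiplicity_eq_zero h2]

lemma norm_symm {n : ℕ} {P : ℂ[X]} (hP : P.natDegree = n) (h0 : P ≠ 0) {t : ℝ}
    (h : ∀ j, j ≤ n → ‖P.coeff (n - j)‖ = t * ‖P.coeff j‖) :
    ∀ j, j ≤ n → ‖P.coeff j‖ = ‖P.coeff (n - j)‖ := by
  have h1 := h 0 (Nat.zero_le _)
  have h2 := h n le_rfl
  rw [Nat.sub_zero] at h1
  rw [Nat.sub_self] at h2
  have p : 0 < ‖P.coeff n‖ := by
    rw [← hP]; exact norm_pos_iff.2 (leadingCoeff_ne_zero.2 h0)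
  have t0 : 0 ≤ t := by
    by_contra hn
    have := mul_neg_of_neg_of_pos (not_le.1 hn) p
    have := norm_nonneg (P.coeff 0)
    linarith
  have t1 : t * t = 1 := by
    rw [h2] at h1
    have : (t * t - 1) * ‖P.coeff n‖ = 0 := by linarith
    have := (mul_eq_zero.1 this).resolve_right p.ne'
    linarith
  have t2 : t = 1 := by nlinarith
  intro j hj
  rw [h j hj, t2, one_mul]

lemma symm_of {P : ℂ[X]} (h0 : P ≠ 0) (hz : P.eval 0 ≠ 0)
    (h : (∀ x, P.IsRoot x → P.rootMultiplicity x⁻¹ = P.rootMultiplicity x) ∨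
      (∀ x, P.IsRoot x → P.rootMultiplicity (conj x)⁻¹ = P.rootMultiplicity x)) :
    ∀ j, j ≤ P.natDegree → ‖P.coeff j‖ = ‖P.coeff (P.natDegree - j)‖ := by
  obtain ⟨κ, hκ⟩ := st_prod _ P rfl h0 (fun x hx h => hz (by rw [h] at hx; exact hx))
  have e := C_leadingCoeff_mul_prod_multiset_X_sub_C (IsAlgClosed.card_roots_eq_natDegree (p := P))
  have l0 : P.leadingCoeff ≠ 0 := leadingCoeff_ne_zero.2 h0
  set W := (P.roots.map (fun a => X - C a)).prod with hW
  have eW : ∀ j, ‖W.coeff j‖ = ‖P.leadingCoeff‖⁻¹ * ‖P.coeff j‖ := by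
    intro j
    have := congrArg (fun q => ‖coeff q j‖) e
    simp only [coeff_C_mul, norm_mul] at this
    rw [← this, ← mul_assoc, inv_mul_cancel₀ (norm_ne_zero_iff.2 l0), one_mul]
  have key : ∀ j, ‖((P.roots.map (fun r => X - C (conj r)⁻¹)).prod).coeff j‖ = ‖W.coeff j‖ := by
    intro j
    rcases h with h | h
    · have := roots_map (P := P) (fun x => x⁻¹) (fun x => inv_inv x) h
      have e2 : (P.roots.map (fun r => X - C (conj r)⁻¹)).prod = cj W := by
        rw [hW, cj, Polynomial.map_multiset_prod, Multiset.map_map]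
        conv_rhs => rw [← this, Multiset.map_map]
        congr 1
        apply Multiset.map_congr rfl
        intro x _
        simp
      rw [e2, cj, coeff_map, Complex.norm_conj]
    · have := roots_map (P := P) (fun x => (conj x)⁻¹) (fun x => by simp) h
      have e2 : (P.roots.map (fun r => X - C (conj r)⁻¹)).prod = W := by
        rw [hW]
        conv_rhs => rw [← this, Multiset.map_map]
        rfl
      rw [e2]
  apply norm_symm rfl h0 (t := ‖κ‖ * ‖P.leadingCoeff‖⁻¹)
  intro j hj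
  have := st_coeff P hj
  rw [← Complex.norm_conj, ← this, hκ, coeff_C_mul, norm_mul, key, eW, mul_assoc]

end

end Pool.Agent.H.MP_c7fa02_an
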